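import Pool.Agent.Helper59.LUC.Goals

set_option autoImplicit false

namespace Pool.Agent.Helper59.LUC

lemma PkWG.aux (T μ : ℤ) (m : ℕ) : ∃ G : ℤ, V T (μ ^ 2) m = 2 * μ ^ m - (2 * μ - T) * G ∧
    (2 * μ - T) ∣ G - (m : ℤ) ^ 2 * μ ^ (m - 1) := by
  induction m using Nat.twoStepInduction with
  | zero => exact ⟨0, by simp [V], by simp⟩
  | one => exact ⟨1, by simp [V], by simp⟩
  | more m ih1 ih2 =>
    obtain ⟨G0, h0, k0, hk0⟩ := ih1
    obtain ⟨G1, h1, k1, hk1⟩ := ih2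
    have e : V T (μ ^ 2) (m + 2) = T * V T (μ ^ 2) (m + 1) - μ ^ 2 * V T (μ ^ 2) m := rfl
    refine ⟨2 * μ * G1 - μ ^ 2 * G0 + 2 * μ ^ (m + 1) - (2 * μ - T) * G1, ?_, ?_⟩
    · rw [e, h0, h1]
      ring
    · have e1 : μ ^ 2 * ((m : ℤ) ^ 2 * μ ^ (m - 1)) = (m : ℤ) ^ 2 * μ ^ (m + 1) := by
        rcases Nat.eq_zero_or_pos m with rfl | hm
        · simp
        · obtain ⟨j, rfl⟩ : ∃ j, m = j + 1 := ⟨m - 1, by omega⟩
          simp only [Nat.add_sub_cancel]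
          ring
      have e2 : m + 1 - 1 = m := by omega
      have e3 : m + 2 - 1 = m + 1 := by omega
      rw [e2] at hk1
      rw [e3]
      refine ⟨2 * μ * k1 - μ ^ 2 * k0 - G1, ?_⟩
      push_cast at hk1 hk0 ⊢
      have g1 : G1 = (2 * μ - T) * k1 + ((m : ℤ) + 1) ^ 2 * μ ^ m := by linear_combination hk1
      have g0 : G0 = (2 * μ - T) * k0 + (m : ℤ) ^ 2 * μ ^ (m - 1) := by linear_combination hk0
      have g2 : μ ^ 2 * G0 = (2 * μ - T) * (μ ^ 2 * k0) + (m : ℤ) ^ 2 * μ ^ (m + 1) := by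
        rw [g0, mul_add, e1]; ring
      have g3 : 2 * μ * G1 = (2 * μ - T) * (2 * μ * k1) + 2 * ((m : ℤ) + 1) ^ 2 * μ ^ (m + 1) := by
        rw [g1]; ring
      linear_combination g3 - g2

theorem PkWG.thm : G_WG := by
  intro T μ m
  obtain ⟨G, h, hd⟩ := PkWG.aux T μ m
  refine ⟨G, ?_, hd⟩
  unfold W
  rw [h]
  ring

end Pool.Agent.Helper59.LUC
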